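import Pool.Agent.N437.QR.Stm

/-!
# Project QR: the choice of the parameters
-/

set_option autoImplicit false

namespace Pool.Agent.N93.QR

open Finset Filter Topology Pool.Agent.N437.QR

/-- the auxiliary parameter -/
def lf (n : ℕ) : ℕ := Nat.sqrt (Nat.sqrt (Nat.log 2 n))

lemma lf_tendsto : Tendsto lf atTop atTop := by
  rw [tendsto_atTop_atTop]
  intro b
  refine ⟨2 ^ ((b * b) * (b * b)), fun a ha => ?_⟩
  unfold lf
  rw [Nat.le_sqrt, Nat.le_sqrt]
  exact Nat.le_log_of_pow_le (by norm_num) ha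

lemma lf_pow (n : ℕ) : (lf n * lf n) * (lf n * lf n) ≤ Nat.log 2 n := by
  have h1 : lf n * lf n ≤ Nat.sqrt (Nat.log 2 n) := Nat.sqrt_le _
  have h2 : Nat.sqrt (Nat.log 2 n) * Nat.sqrt (Nat.log 2 n) ≤ Nat.log 2 n := Nat.sqrt_le _
  exact (Nat.mul_le_mul h1 h1).trans h2

lemma expo (K l : ℕ) (h : 8 * K + 2 ≤ l) : 2 * K * (l + 1) ^ 2 + l ≤ (l * l) * (l * l) := by
  have h1 : (l + 1) ^ 2 ≤ 4 * (l * l) := by nlinarith
  have h2 : 2 * K * (l + 1) ^ 2 ≤ (8 * K) * (l * l) := by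
    calc 2 * K * (l + 1) ^ 2 ≤ 2 * K * (4 * (l * l)) := Nat.mul_le_mul_left _ h1
      _ = (8 * K) * (l * l) := by ring
  have h3 : (8 * K) * (l * l) ≤ l * (l * l) := Nat.mul_le_mul_right _ (by omega)
  have h4 : l * (l * l) + l ≤ (l * l) * (l * l) := by
    have h5 : l ≤ l * (l * l) := Nat.le_mul_of_pos_right _ (Nat.mul_pos (by omega) (by omega))
    have h6 : 2 * (l * (l * l)) ≤ l * (l * (l * l)) := Nat.mul_le_mul_right _ (by omega)
    have h7 : l * (l * (l * l)) = (l * l) * (l * l) := by ring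
    omega
  omega

theorem t_PAR : S_PAR := by
  refine ⟨fun n => lf n + 1, fun n => (1 / 4 : ℝ) ^ ((lf n + 1) ^ 2), fun n => Nat.le_add_left 1 _,
    tendsto_atTop_mono (fun n => Nat.le_succ (lf n)) lf_tendsto, ?_, ?_, ?_, ?_⟩
  · intro n
    exact ⟨by positivity, pow_le_one₀ (by norm_num) (by norm_num)⟩
  · intro n
    have hm : (0 : ℝ) < ((lf n + 1 : ℕ) : ℝ) := by positivity
    set m : ℕ := lf n + 1 with hmdef
    have h1 : |-(1 / (m : ℝ))| = 1 / (m : ℝ) := by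
      rw [abs_neg, abs_of_pos (by positivity)]
    have h2 : (1 + 1 / (m : ℝ)) ^ m ≤ 4 := by
      have h3 : (1 + 1 / (m : ℝ)) ≤ Real.exp (1 / (m : ℝ)) := by
        have := Real.add_one_le_exp (1 / (m : ℝ))
        linarith
      calc (1 + 1 / (m : ℝ)) ^ m ≤ (Real.exp (1 / (m : ℝ))) ^ m :=
            pow_le_pow_left₀ (by positivity) h3 m
        _ = Real.exp 1 := by
            rw [← Real.exp_nat_mul]
            congr 1
            field_simp
        _ ≤ 4 := by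
            have := Real.exp_one_lt_d9
            linarith
    have h4 : (m ^ 3 : ℕ) = m * m ^ 2 := by ring
    have h5 : (1 + 1 / (m : ℝ)) ^ (m ^ 3) ≤ 4 ^ (m ^ 2) := by
      rw [h4, pow_mul]
      exact pow_le_pow_left₀ (by positivity) h2 _
    show (1 / 4 : ℝ) ^ (m ^ 2) * (1 + |-(1 / (m : ℝ))|) ^ (m ^ 3) ≤ 1
    rw [h1]
    calc (1 / 4 : ℝ) ^ (m ^ 2) * (1 + 1 / (m : ℝ)) ^ (m ^ 3)
        ≤ (1 / 4 : ℝ) ^ (m ^ 2) * 4 ^ (m ^ 2) :=
          mul_le_mul_of_nonneg_left h5 (by positivity)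
      _ = 1 := by rw [← mul_pow]; norm_num
  · intro K
    have hlim : Tendsto (fun n => (1 / 2 : ℝ) ^ (lf n)) atTop (𝓝 0) :=
      (tendsto_pow_atTop_nhds_zero_of_lt_one (by norm_num) (by norm_num)).comp lf_tendsto
    refine squeeze_zero' (Eventually.of_forall fun n => by positivity) ?_ hlim
    filter_upwards [lf_tendsto.eventually_ge_atTop (8 * K + 2), eventually_ge_atTop 1] with n hn hn1
    have h1 := expo K (lf n) hn
    have h2 := lf_pow n
    have h3 : 2 ^ (Nat.log 2 n) ≤ n := Nat.pow_log_le_self 2 (by omega)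
    have h4 : 2 ^ (2 * K * (lf n + 1) ^ 2 + lf n) ≤ n :=
      (Nat.pow_le_pow_right (by norm_num) (h1.trans h2)).trans h3
    have h5 : (2 : ℝ) ^ (2 * K * (lf n + 1) ^ 2 + lf n) ≤ n := by exact_mod_cast h4
    have h6 : (((1 / 4 : ℝ) ^ ((lf n + 1) ^ 2))⁻¹) ^ K = 2 ^ (2 * K * (lf n + 1) ^ 2) := by
      rw [← inv_pow, ← pow_mul]
      have : ((1 / 4 : ℝ))⁻¹ = 2 ^ 2 := by norm_num
      rw [this, ← pow_mul]
      congr 1
      ring
    rw [h6, div_le_iff₀ (by exact_mod_cast hn1)]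
    have h7 : (1 / 2 : ℝ) ^ lf n * n ≥ (1 / 2 : ℝ) ^ lf n * 2 ^ (2 * K * (lf n + 1) ^ 2 + lf n) :=
      mul_le_mul_of_nonneg_left h5 (by positivity)
    have h8 : (1 / 2 : ℝ) ^ lf n * 2 ^ (2 * K * (lf n + 1) ^ 2 + lf n)
        = 2 ^ (2 * K * (lf n + 1) ^ 2) := by
      rw [pow_add, mul_left_comm, ← mul_pow]
      norm_num
    linarith
  · have hlim : Tendsto (fun n => (1 / 4 : ℝ) ^ (lf n)) atTop (𝓝 0) :=
      (tendsto_pow_atTop_nhds_zero_of_lt_one (by norm_num) (by norm_num)).comp lf_tendsto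
    refine squeeze_zero (fun n => by positivity) (fun n => ?_) hlim
    exact pow_le_pow_of_le_one (by norm_num) (by norm_num) (by nlinarith)

end Pool.Agent.N93.QR
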